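import Pool.Agent.Lib.P254f8a.Final

/-!
A model of ZFC in which, for some infinite cardinal `κ`, no Tychonoff space `X` of weight at most
`κ` has the property that the space of separately continuous real valued functions on the square
of `X`, with the topology of pointwise convergence, contains a discrete subspace of cardinality
two to the `κ`.
-/

namespace Pool.Agent.Results.MP_254f8a_gt.FailsInModel

open Pool.Agent.Lib.BVM Pool.Agent.Lib.P254f8a

/-- There is a model of ZFC in which the statement Q1 fails. -/
theorem result : ∃ (M : Type 1) (E : M → M → Prop), ModelZFC M E ∧ ¬ Q1 E :=
  exists_model

end Pool.Agent.Results.MP_254f8a_gt.FailsInModel
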